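import Pool.Agent.L7h27.PR.Low

set_option autoImplicit false

/-!
# Almost primes `n ^ 2 + 1` in almost all very short progressions with an arbitrary difference

For all large `X`, every length `H ≥ X ^ ε` (however small `ε > 0` is) and EVERY difference `q ≤ X / H`,
almost all progressions `u + q, u + 2 q, ..., u + H q`, `u ≤ X`, with `u ^ 2 + 1` prime to `q`, contain
integers `n` such that `n ^ 2 + 1` has at most `5` prime factors, in at least the expected order of
magnitude; if `H ≥ X ^ (19 / 250 + ε)`, the number `5` can be replaced by `4`, and if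
`H ≥ X ^ (9 / 20 + ε)`, by `3`.

For instance let the leading digits of `n` and the last digits of `n`, in a base `b`, be prescribed, and let
only `ε log X` digits between them be free: for almost all choices of the prescribed digits for which the
number formed by the last digits is admissible, there are such `n` with `n ^ 2 + 1` an almost prime.
-/

namespace Pool.Agent.Results.MP_484c84_nt.AlmostAllProgressions

open Finset Filter

open Classical in
/-- the number of the terms `n` of the progression `u + q, u + 2 q, ..., u + H q` such that `n ^ 2 + 1`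
has at most `r` prime factors, counted with multiplicity, all of them at least `w` -/
noncomputable def almostPrimeCount (r : ℕ) (w : ℝ) (u H q : ℕ) : ℕ :=
  ((Icc 1 H).filter (fun j : ℕ => ((u + q * j) ^ 2 + 1).primeFactorsList.length ≤ r ∧
    ∀ p : ℕ, p.Prime → p ∣ (u + q * j) ^ 2 + 1 → w ≤ p)).card

/-- the factor `∏ (1 - ρ(p) / p)⁻¹`, over the primes `p` dividing `q`, of the conjectured number of
primes `n ^ 2 + 1` in the admissible classes modulo `q`; `ρ(p)` is the number of the `m` modulo `p` with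
`m ^ 2 + 1 ≡ 0` -/
noncomputable def localFactor (q : ℕ) : ℝ :=
  ∏ p ∈ q.primeFactors, (1 - (((range p).filter (fun m : ℕ => p ∣ m ^ 2 + 1)).card : ℝ) / p)⁻¹

theorem valZ (n : ℕ) : (1 * (n : ℤ) ^ 2 + 0 * n + 1) = ((n ^ 2 + 1 : ℕ) : ℤ) := by
  push_cast
  ring

open Classical in
/-- **Almost primes `n ^ 2 + 1` in almost all short progressions with any difference.** Let `r = 5`,
`1 / 2 ≤ t < 1`, `z = 2 t / 5`, or `r = 4`, `269 / 500 ≤ t < 1`, `z = t / 4`, or `r = 3`,
`29 / 40 ≤ t < 1`, `z = t / 4`. For every `ε > 0` there is `δ > 0` such that, for all large `X`, for EVERY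
length `H` and EVERY difference `q` with `q H ≤ X`, for all but at most
`(X ^ (2 t) / H + X ^ (24 t / 25)) X ^ ε` of the integers `1 ≤ u ≤ X` with `u ^ 2 + 1` prime to `q` the
number of the terms `n` of the progression `u + q, ..., u + H q` such that `n ^ 2 + 1` has at most `r`
prime factors, all at least `X ^ z`, is at least `δ ∏_{p ∣ q} (1 - ρ(p) / p)⁻¹ H / log X`. -/
theorem result (r : ℕ) (t z : ℝ)
    (hpar : (r = 5 ∧ 1 / 2 ≤ t ∧ z = 2 / 5 * t) ∨ (r = 4 ∧ 269 / 500 ≤ t ∧ z = t / 4) ∨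
      (r = 3 ∧ 29 / 40 ≤ t ∧ z = t / 4)) (ht : t < 1) (ε : ℝ) (hε : 0 < ε) :
    ∃ δ : ℝ, 0 < δ ∧ ∀ᶠ X : ℕ in atTop, ∀ H q : ℕ, 1 ≤ H → 1 ≤ q → q * H ≤ X →
      (((Icc 1 X).filter (fun u : ℕ => (u ^ 2 + 1).Coprime q ∧
        (almostPrimeCount r ((X : ℝ) ^ z) u H q : ℝ) <
          δ * (localFactor q * H / Real.log X))).card : ℝ) ≤
      ((X : ℝ) ^ (2 * t) / H + (X : ℝ) ^ (24 / 25 * t)) * (X : ℝ) ^ ε := by
  have hQ : Pool.Agent.L7h2.QS.Adm 1 0 1 := by
    refine ⟨by norm_num, ?_, by norm_num, ?_⟩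
    · rintro p hp ⟨-, -, h3⟩
      exact (Nat.prime_iff_prime_int.1 hp).not_dvd_one h3
    · rintro ⟨x, hx⟩
      nlinarith [mul_self_nonneg x]
  obtain ⟨δ, hδ, h1⟩ := Pool.Agent.L7h27.PR.finAllP hQ r t z hpar ht ε hε
  refine ⟨δ, hδ, ?_⟩
  have hlf : ∀ q : ℕ, Pool.Agent.L7h27.AP.lfG (Pool.Agent.R498.MT.QG 1 0 1) q = localFactor q := by
    intro q
    unfold Pool.Agent.L7h27.AP.lfG localFactor
    refine prod_congr rfl (fun p _ => ?_)
    congr 3
    rw [Pool.Agent.Y882.PX.ro_eq]
    congr 2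
    apply filter_congr
    intro m _
    rw [Pool.Agent.R498.MT.QG_eval, add_zero, valZ]
    exact Int.natCast_dvd_natCast
  have hpc : ∀ (w : ℝ) (u H q : ℕ),
      Pool.Agent.L7h27.PR.cntP 1 0 1 r w u H q = almostPrimeCount r w u H q := by
    intro w u H q
    unfold Pool.Agent.L7h27.PR.cntP almostPrimeCount
    congr 1
    apply filter_congr
    intro j _
    rw [valZ, Int.natAbs_natCast]
    constructor
    · rintro ⟨u2, u3⟩
      exact ⟨u2, fun p hp hd => u3 p hp (Int.natCast_dvd_natCast.2 hd)⟩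
    · rintro ⟨u2, u3⟩
      exact ⟨u2, fun p hp hd => u3 p hp (Int.natCast_dvd_natCast.1 hd)⟩
  have had : ∀ q u : ℕ, (u ^ 2 + 1).Coprime q →
      ∀ p : ℕ, p.Prime → p ∣ q → ¬ (p : ℤ) ∣ 1 * (u : ℤ) ^ 2 + 0 * u + 1 := by
    intro q u hc p hp hpq hd
    rw [valZ] at hd
    have h2 := Nat.dvd_gcd (Int.natCast_dvd_natCast.1 hd) hpq
    rw [hc] at h2
    exact hp.one_lt.ne' (Nat.dvd_one.1 h2)
  filter_upwards [h1] with X hX H q hH hq hqX
  have h3 := hX H q hH hq hqX
  simp only [hlf, hpc] at h3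
  refine le_trans ?_ h3
  rw [Nat.cast_le]
  apply card_le_card
  intro u hu
  rw [mem_filter] at hu ⊢
  exact ⟨hu.1, had q u hu.2.1, hu.2.2⟩

end Pool.Agent.Results.MP_484c84_nt.AlmostAllProgressions
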