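import Pool.Agent.L7h27.Omega1

/-!
The error term of the formula for the number of primes `n^2+1` is `Ω(log log N)`, in every short interval. It rests on
`Pool.Agent.H474R2.PG.composite_strings` of the starting library (long strings of composite values of polynomials).
-/

namespace Pool.Agent.Results.MP_484c84_nt.ErrorTermShortIntervals

/-- There are `c > 0` and `Y₀` such that for every set `S`, all `C ≥ 0`, `Y ≥ Y₀` and all integers `x ≥ Y` some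
integer `N` between `x` and `x + Y` satisfies
`|#{1 ≤ n ≤ N : n ∈ S, n^2+1 prime} - C ∫_2^N dt / log t| ≥ c C (log Y / log x) log log Y`. -/
theorem result : ∃ c : ℝ, 0 < c ∧ ∃ Y₀ : ℝ, ∀ (S : Set ℕ) (C Y : ℝ) (x : ℕ), 0 ≤ C → Y₀ ≤ Y → Y ≤ x →
    ∃ N : ℕ, x ≤ N ∧ (N : ℝ) ≤ x + Y ∧
      c * C * (Real.log Y / Real.log x) * Real.log (Real.log Y) ≤
        |(({n : ℕ | 1 ≤ n ∧ n ≤ N ∧ n ∈ S ∧ (n ^ 2 + 1).Prime}.ncard : ℕ) : ℝ) -
          C * ∫ t in (2 : ℝ)..(N : ℝ), 1 / Real.log t| := by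
  obtain ⟨c, hc, Y₀, h⟩ := Pool.Agent.L7h27.Om.omega
  refine ⟨c, hc, Y₀, fun S C Y x hC hY hx => ?_⟩
  obtain ⟨N, h1, h2, h3⟩ := h S C Y x hC hY hx
  refine ⟨N, h1, h2, ?_⟩
  have e : {n : ℕ | 1 ≤ n ∧ n ≤ N ∧ n ∈ S ∧ (n ^ 2 + 1).Prime}.ncard = Pool.Agent.L7h27.Om.P S N := by
    classical
    unfold Pool.Agent.L7h27.Om.P
    rw [← Set.ncard_coe_finset]
    congr 1
    ext n
    simp [and_assoc]
  rw [e]
  exact h3

end Pool.Agent.Results.MP_484c84_nt.ErrorTermShortIntervals
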