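import Pool.Agent.L7h27.AP.Low3

set_option autoImplicit false

/-!
# Almost primes of the form `n ^ 2 + 1` in almost all residue classes, for every modulus

For all large `X` and EVERY modulus `q ≤ X ^ (1 - ε)` almost all residue classes `a` modulo `q` with
`a ^ 2 + 1` prime to `q` contain numbers `n ≤ X` such that `n ^ 2 + 1` has at most `5` prime factors,
in at least the expected order of magnitude; for `q ≤ X ^ (231 / 250 - ε)` the number `5` can be
replaced by `4`, and for `q ≤ X ^ (11 / 20 - ε)` by `3`. The same holds in every interval.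

The mean square estimate over the residue classes of the file `EveryModulusUpper` is combined with the
weighted linear sieve with universal weights of the starting library (`Pool/Agent/L7h27/AP/Low`).
-/

namespace Pool.Agent.Results.MP_484c84_nt.EveryModulusAlmostPrimes

open Finset Filter

open Classical in
/-- the number of the integers `n ≡ a` modulo `q` in `(N, N + M]` such that `n ^ 2 + 1` has at most `r`
prime factors, counted with multiplicity, all of them at least `w` (`0 ≤ a < q`) -/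
noncomputable def almostPrimeCount (r : ℕ) (w : ℝ) (N M q a : ℕ) : ℕ :=
  ((Ioc N (N + M)).filter (fun n : ℕ => n % q = a ∧ (n ^ 2 + 1).primeFactorsList.length ≤ r ∧
    ∀ p : ℕ, p.Prime → p ∣ n ^ 2 + 1 → w ≤ p)).card

/-- the number of the solutions of `m ^ 2 + 1 ≡ 0` modulo `p` -/
def rho (p : ℕ) : ℕ := ((range p).filter (fun m : ℕ => p ∣ m ^ 2 + 1)).card

/-- the factor `∏ (1 - ρ(p) / p)⁻¹`, over the primes `p` dividing `q`, of the conjectured number of
primes in the classes `a` modulo `q` with `a ^ 2 + 1` prime to `q` -/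
noncomputable def localFactor (q : ℕ) : ℝ := ∏ p ∈ q.primeFactors, (1 - (rho p : ℝ) / p)⁻¹

open Classical in
/-- **Almost primes `n ^ 2 + 1` in almost all residue classes.** Let `r = 5`, `1 / 2 ≤ t < 1`,
`z = 2 t / 5`, or `r = 4`, `269 / 500 ≤ t < 1`, `z = t / 4`, or `r = 3`, `29 / 40 ≤ t < 1`, `z = t / 4`.
For every `ε > 0` there is `δ > 0` such that, for all large `X`, for EVERY modulus `q ≤ X` and EVERY
interval `(N, N + M]` with `N, M ≤ X`, for all but at most
`((M + X ^ (2 t)) (q / M) ^ 2 + (q / M) X ^ (24 / 25)) X ^ ε` of the residue classes `a` modulo `q` with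
`a ^ 2 + 1` prime to `q` the number of the `n ≡ a` modulo `q` in the interval such that `n ^ 2 + 1` has
at most `r` prime factors, all at least `X ^ z`, is at least
`δ ∏_{p ∣ q} (1 - ρ(p) / p)⁻¹ (M / q) / log X`. -/
theorem result (r : ℕ) (t z : ℝ)
    (hpar : (r = 5 ∧ 1 / 2 ≤ t ∧ z = 2 / 5 * t) ∨ (r = 4 ∧ 269 / 500 ≤ t ∧ z = t / 4) ∨
      (r = 3 ∧ 29 / 40 ≤ t ∧ z = t / 4)) (ht : t < 1) (ε : ℝ) (hε : 0 < ε) :
    ∃ δ : ℝ, 0 < δ ∧ ∀ᶠ X : ℕ in atTop, ∀ N M q : ℕ, N ≤ X → 1 ≤ M → M ≤ X → 1 ≤ q → q ≤ X →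
      (((range q).filter (fun a : ℕ => (a ^ 2 + 1).Coprime q ∧
        (almostPrimeCount r ((X : ℝ) ^ z) N M q a : ℝ) <
          δ * (localFactor q * ((M : ℝ) / q) / Real.log X))).card : ℝ) ≤
      ((M + (X : ℝ) ^ (2 * t)) * ((q : ℝ) / M) ^ 2 + (q : ℝ) / M * (X : ℝ) ^ (24 / 25 : ℝ)) *
        (X : ℝ) ^ ε := by
  obtain ⟨δ, hδ, h1⟩ := Pool.Agent.L7h27.AP.finAllW r t z hpar ht ε hε
  refine ⟨δ, hδ, ?_⟩
  have hlf : ∀ q : ℕ, Pool.Agent.L7h27.AP.lf q = localFactor q := by
    intro q
    unfold Pool.Agent.L7h27.AP.lf localFactor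
    refine prod_congr rfl (fun p _ => ?_)
    congr 3
    rw [Pool.Agent.Y882.PX.ro_eq]
    unfold rho
    congr 2
    apply filter_congr
    intro m _
    rw [Pool.Agent.Y882.SI.QF_eval, add_zero]
    constructor
    · intro h
      exact_mod_cast h
    · intro h
      exact_mod_cast h
  have hpc : ∀ (w : ℝ) (N M q a : ℕ),
      Pool.Agent.L7h27.AP.apc r w N M q a = almostPrimeCount r w N M q a := by
    intro w N M q a
    unfold Pool.Agent.L7h27.AP.apc almostPrimeCount Pool.Agent.L7h27.AP.SC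
    rw [filter_filter]
  filter_upwards [h1] with X hX N M q hN hM hMX hq hqX
  have h3 := hX N M q hN hM hMX hq hqX
  simp only [hlf, hpc] at h3
  exact h3

end Pool.Agent.Results.MP_484c84_nt.EveryModulusAlmostPrimes
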