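import Pool.Agent.L7h27.AP.Upper

set_option autoImplicit false

/-!
# Upper bounds for the number of primes `n ^ 2 + 1` in almost all residue classes, for every modulus

For an individual residue class modulo `q = X ^ κ` the sieve gives at most `4 / (1 - κ) + δ` times the
conjectured number of the `n ≤ X` in the class with `n ^ 2 + 1` prime. Here the constant is
`8 / (2 - κ) + δ` for almost all classes modulo `q`, for EVERY modulus `q ≤ X ^ κ`, `κ < 1`, with a
power saving in the number of the exceptional classes, and the same holds in every interval.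

The new ingredient is an estimate of the mean square, over the residue classes modulo `q`, of the
error terms of a sieve of level `D` for the values of a polynomial in an interval of length `M`; it is
at most `(M + D ^ 2) X ^ ε`, for every modulus (`Pool/Agent/L7h27/AP`). The linear sieve with the exact
functions and the densities of `n ^ 2 + 1` are from the starting library.
-/

namespace Pool.Agent.Results.MP_484c84_nt.EveryModulusUpper

open Finset Filter Topology

/-- the number of the integers `n ≡ a` modulo `q` in `(N, N + M]` such that `n ^ 2 + 1` is a prime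
(`0 ≤ a < q`) -/
def primeCount (N M q a : ℕ) : ℕ :=
  ((Ioc N (N + M)).filter (fun n : ℕ => n % q = a ∧ (n ^ 2 + 1).Prime)).card

/-- the number of the solutions of `m ^ 2 + 1 ≡ 0` modulo `p` -/
def rho (p : ℕ) : ℕ := ((range p).filter (fun m : ℕ => p ∣ m ^ 2 + 1)).card

/-- the factor `∏ (1 - ρ(p) / p)⁻¹`, over the primes `p` dividing `q`, of the conjectured number of
primes in the classes `a` modulo `q` with `a ^ 2 + 1` prime to `q` -/
noncomputable def localFactor (q : ℕ) : ℝ := ∏ p ∈ q.primeFactors, (1 - (rho p : ℝ) / p)⁻¹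

open Classical in
/-- **Primes `n ^ 2 + 1` in almost all residue classes.** There is `c₁ > 0`, half of the product over
the odd primes `p` of `1 - χ₋₄(p) / (p - 1)`, the constant of the conjecture, such that for all
`0 < t < 1` and `δ, ε > 0`, all large `X`, EVERY modulus `q ≤ X` and EVERY interval `(N, N + M]` the
number of the `n ≡ a` modulo `q` in the interval with `n ^ 2 + 1` prime is at most
`(4 / t + δ) c₁ ∏_{p ∣ q} (1 - ρ(p) / p)⁻¹ (M / q) / log X`, for all but at most
`(M + X ^ (2 t)) (q / M) ^ 2 X ^ ε` of the residue classes `a` modulo `q`.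

(For `M = X`, `q = X ^ κ` and `1 / 2 ≤ t < 1 - κ / 2` the number of exceptional classes is
`q ^ (1 - c)` for some `c > 0`, if `ε` is small.) -/
theorem result : ∃ c₁ : ℝ, 0 < c₁ ∧
    Tendsto (fun x : ℕ => 1 / 2 * ∏ p ∈ (Finset.range (x + 1)).filter (fun p => p.Prime ∧ Odd p),
      (1 - (((ZMod.χ₄ (p : ZMod 4) : ℤ) : ℝ)) / ((p : ℝ) - 1))) atTop (𝓝 c₁) ∧
    ∀ t δ ε : ℝ, 0 < t → t < 1 → 0 < δ → 0 < ε →
      ∀ᶠ X : ℕ in atTop, ∀ N M q : ℕ, 1 ≤ M → 1 ≤ q → q ≤ X →
        (((range q).filter (fun a : ℕ =>
          (4 / t + δ) * (c₁ * localFactor q * ((M : ℝ) / q) / Real.log X) <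
            (primeCount N M q a : ℝ))).card : ℝ) ≤
          (M + (X : ℝ) ^ (2 * t)) * ((q : ℝ) / M) ^ 2 * (X : ℝ) ^ ε := by
  obtain ⟨L, hL, h1, h2⟩ := Pool.Agent.L7h27.AP.mainC
  refine ⟨L / 2, by positivity, ?_, ?_⟩
  · have h3 := h1.const_mul (1 / 2)
    rw [show (1 / 2 : ℝ) * L = L / 2 by ring] at h3
    exact h3
  · intro t δ ε a1 a2 a3 a4
    have hlf : ∀ q : ℕ, Pool.Agent.L7h27.AP.lf q = localFactor q := by
      intro q
      unfold Pool.Agent.L7h27.AP.lf localFactor
      refine prod_congr rfl (fun p _ => ?_)
      congr 3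
      rw [Pool.Agent.Y882.PX.ro_eq]
      unfold rho
      congr 2
      apply filter_congr
      intro m _
      rw [Pool.Agent.Y882.SI.QF_eval, add_zero]
      constructor
      · intro h
        exact_mod_cast h
      · intro h
        exact_mod_cast h
    have hpc : ∀ N M q a : ℕ, Pool.Agent.L7h27.AP.prc N M q a = primeCount N M q a := by
      intro N M q a
      unfold Pool.Agent.L7h27.AP.prc primeCount Pool.Agent.L7h27.AP.SC
      rw [filter_filter]
    filter_upwards [h2 t δ ε a1 a2 a3 a4] with X hX N M q hM hq hqX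
    have h3 := hX N M q hM hq hqX
    simp only [hlf, hpc] at h3
    exact h3

end Pool.Agent.Results.MP_484c84_nt.EveryModulusUpper
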